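import Mathlib

/-!
Spreading out: the linear condition that no tuple of forms of degree `e` is proportional to a given
tuple is open in families.
-/

set_option autoImplicit false

open MvPolynomial

namespace Pool.Agent.R855.Drop

/-- no nonzero tuple of forms of degree `e` is proportional to `P` -/
def NoProp {A : Type*} [CommRing A] {n : ℕ} (P : Fin n → MvPolynomial (Fin n) A) (e : ℕ) : Prop :=
  ∀ g : Fin n → MvPolynomial (Fin n) A, (∀ i, (g i).IsHomogeneous e) →
    (∀ i j, P i * g j = P j * g i) → ∀ i, g i = 0

/-- exponents of total degree `e` -/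
abbrev Ind (n e : ℕ) : Type := {u : Fin n → Fin (e + 1) // ∑ i, (u i : ℕ) = e}

/-- the exponent as a finitely supported function -/
noncomputable def expo {n e : ℕ} (u : Ind n e) : Fin n →₀ ℕ :=
  Finsupp.equivFunOnFinite.symm fun i => (u.1 i : ℕ)

lemma expo_inj {n e : ℕ} : Function.Injective (expo : Ind n e → Fin n →₀ ℕ) := by
  intro u v h
  apply Subtype.ext
  funext i
  apply Fin.ext
  have := DFunLike.congr_fun h i
  simpa [expo] using this

lemma expo_degree {n e : ℕ} (u : Ind n e) : (expo u).degree = e := by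
  rw [Finsupp.degree_eq_sum]
  simpa [expo] using u.2

lemma exists_expo {n e : ℕ} (m : Fin n →₀ ℕ) (hm : m.degree = e) : ∃ u : Ind n e, expo u = m := by
  rw [Finsupp.degree_eq_sum] at hm
  refine ⟨⟨fun i => ⟨m i, ?_⟩, ?_⟩, ?_⟩
  · have : m i ≤ ∑ j, m j := Finset.single_le_sum (fun _ _ => Nat.zero_le _) (Finset.mem_univ i)
    omega
  · simpa using hm
  · ext i
    simp [expo]

/-- the form with given coefficients -/
noncomputable def form {A : Type*} [CommRing A] {n e : ℕ} (c : Fin n × Ind n e → A) (i : Fin n) :
    MvPolynomial (Fin n) A := ∑ u : Ind n e, C (c (i, u)) * monomial (expo u) 1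

lemma form_hom {A : Type*} [CommRing A] {n e : ℕ} (c : Fin n × Ind n e → A) (i : Fin n) :
    (form c i).IsHomogeneous e := by
  apply IsHomogeneous.sum
  intro u _
  rw [C_mul_monomial]
  exact isHomogeneous_monomial _ (expo_degree u)

lemma coeff_form {A : Type*} [CommRing A] {n e : ℕ} (c : Fin n × Ind n e → A) (i : Fin n)
    (u : Ind n e) : coeff (expo u) (form c i) = c (i, u) := by
  classical
  unfold form
  rw [coeff_sum, Finset.sum_eq_single u]
  · rw [C_mul_monomial, coeff_monomial, if_pos rfl, mul_one]
  · intro v _ hv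
    rw [C_mul_monomial, coeff_monomial, if_neg]
    intro h
    exact hv (expo_inj h)
  · intro h
    exact absurd (Finset.mem_univ u) h

lemma eq_form {A : Type*} [CommRing A] {n e : ℕ} (g : Fin n → MvPolynomial (Fin n) A)
    (hg : ∀ i, (g i).IsHomogeneous e) (i : Fin n) :
    g i = form (fun p : Fin n × Ind n e => coeff (expo p.2) (g p.1)) i := by
  classical
  ext m
  by_cases hm : m.degree = e
  · obtain ⟨u, rfl⟩ := exists_expo m hm
    rw [coeff_form]
  · rw [(hg i).coeff_eq_zero hm, (form_hom _ i).coeff_eq_zero hm]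

section Matrix

variable {R : Type*} [CommRing R] {n : ℕ} (P : Fin n → MvPolynomial (Fin n) R) (e : ℕ)

open Classical in
/-- a finite set of monomials which contains all which can occur -/
noncomputable def supp : Finset (Fin n →₀ ℕ) :=
  Finset.univ.biUnion fun p : Fin n × Ind n e => (P p.1 * monomial (expo p.2) 1).support

open Classical in
/-- the matrix of the linear system `P i * g j = P j * g i` -/
noncomputable def mat : Matrix (Fin n × Fin n × supp P e) (Fin n × Ind n e) R :=
  fun r c => (if c.1 = r.2.1 then coeff (r.2.2 : Fin n →₀ ℕ) (P r.1 * monomial (expo c.2) 1) else 0)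
    - (if c.1 = r.1 then coeff (r.2.2 : Fin n →₀ ℕ) (P r.2.1 * monomial (expo c.2) 1) else 0)

lemma mul_form {A : Type*} [CommRing A] (φ : R →+* A) (c : Fin n × Ind n e → A) (i j : Fin n)
    (M : Fin n →₀ ℕ) :
    coeff M (map φ (P i) * form c j) =
      ∑ u : Ind n e, φ (coeff M (P i * monomial (expo u) 1)) * c (j, u) := by
  unfold form
  rw [Finset.mul_sum, coeff_sum]
  apply Finset.sum_congr rfl
  intro u _
  have h : map φ (P i) * (C (c (j, u)) * monomial (expo u) 1) =
      C (c (j, u)) * map φ (P i * monomial (expo u) 1) := by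
    rw [map_mul, map_monomial, RingHom.map_one]
    ring
  rw [h, coeff_C_mul, coeff_map, mul_comm]

open Classical in
lemma mat_mulVec {A : Type*} [CommRing A] (φ : R →+* A) (c : Fin n × Ind n e → A)
    (i j : Fin n) (M : supp P e) :
    ((mat P e).map φ).mulVec c (i, j, M) =
      coeff (M : Fin n →₀ ℕ) (map φ (P i) * form c j - map φ (P j) * form c i) := by
  rw [coeff_sub, mul_form, mul_form]
  simp only [Matrix.mulVec, dotProduct, Matrix.map_apply, mat, map_sub, apply_ite φ, map_zero]
  rw [Fintype.sum_prod_type]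
  simp only [sub_mul, ite_mul, zero_mul, Finset.sum_sub_distrib]
  congr 1
  · rw [Finset.sum_eq_single j]
    · simp
    · intro b _ hb
      simp [hb]
    · intro h
      exact absurd (Finset.mem_univ j) h
  · rw [Finset.sum_eq_single i]
    · simp
    · intro b _ hb
      simp [hb]
    · intro h
      exact absurd (Finset.mem_univ i) h

lemma coeff_eq_zero_of_notMem {A : Type*} [CommRing A] (φ : R →+* A) (c : Fin n × Ind n e → A)
    (i j : Fin n) (M : Fin n →₀ ℕ) (hM : M ∉ supp P e) :
    coeff M (map φ (P i) * form c j) = 0 := by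
  rw [mul_form]
  apply Finset.sum_eq_zero
  intro u _
  have : coeff M (P i * monomial (expo u) 1) = 0 := by
    by_contra h
    apply hM
    unfold supp
    rw [Finset.mem_biUnion]
    exact ⟨(i, u), Finset.mem_univ _, mem_support_iff.2 h⟩
  rw [this, map_zero, zero_mul]

lemma prop_iff {A : Type*} [CommRing A] (φ : R →+* A) (c : Fin n × Ind n e → A) :
    ((mat P e).map φ).mulVec c = 0 ↔ ∀ i j, map φ (P i) * form c j = map φ (P j) * form c i := by
  constructor
  · intro h i j
    ext M
    by_cases hM : M ∈ supp P e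
    · have := congrFun h (i, j, ⟨M, hM⟩)
      rw [mat_mulVec, coeff_sub] at this
      exact sub_eq_zero.1 this
    · rw [coeff_eq_zero_of_notMem P e φ c i j M hM, coeff_eq_zero_of_notMem P e φ c j i M hM]
  · intro h
    funext ⟨i, j, M⟩
    rw [mat_mulVec, h i j, sub_self, coeff_zero]
    rfl

lemma noProp_iff {A : Type*} [CommRing A] (φ : R →+* A) :
    NoProp (fun i => map φ (P i)) e ↔
      ∀ c : Fin n × Ind n e → A, ((mat P e).map φ).mulVec c = 0 → c = 0 := by
  constructor
  · intro h c hc
    have h1 := h (form c) (form_hom c) ((prop_iff P e φ c).1 hc)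
    funext ⟨i, u⟩
    rw [← coeff_form c i u, h1 i, coeff_zero]
    rfl
  · intro h g hg hgP i
    have hgf : g = form (fun p : Fin n × Ind n e => coeff (expo p.2) (g p.1)) := by
      funext j
      exact eq_form g hg j
    have h1 := h (fun p : Fin n × Ind n e => coeff (expo p.2) (g p.1)) ((prop_iff P e φ _).2 (by
      rw [← hgf]
      exact hgP))
    rw [hgf, h1]
    simp [form]

end Matrix

/-- Spreading out of the condition `NoProp`. -/
theorem noProp_spread {R K : Type*} [CommRing R] [IsDomain R] [Field K] [Algebra R K]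
    [IsFractionRing R K] {n : ℕ} (P : Fin n → MvPolynomial (Fin n) R) (e : ℕ)
    (h : NoProp (fun i => map (algebraMap R K) (P i)) e) :
    ∃ r : R, r ≠ 0 ∧ ∀ (L : Type) [Field L] (φ : R →+* L), φ r ≠ 0 →
      NoProp (fun i => map φ (P i)) e := by
  classical
  rw [noProp_iff] at h
  set A := mat P e with hA
  have hinj : LinearMap.ker (Matrix.toLin' (A.map (algebraMap R K))) = ⊥ := by
    rw [LinearMap.ker_eq_bot']
    intro c hc
    rw [Matrix.toLin'_apply] at hc
    exact h c hc
  obtain ⟨g, hg⟩ := LinearMap.exists_leftInverse_of_injective _ hinj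
  set B := LinearMap.toMatrix' g with hB
  have hBA : B * A.map (algebraMap R K) = 1 := by
    have h1 := congrArg LinearMap.toMatrix' hg
    rw [LinearMap.toMatrix'_comp, LinearMap.toMatrix'_id, LinearMap.toMatrix'_toLin'] at h1
    exact h1
  obtain ⟨b, hb⟩ := IsLocalization.exist_integer_multiples_of_finite (nonZeroDivisors R)
    (fun p : (Fin n × Ind n e) × (Fin n × Fin n × supp P e) => B p.1 p.2)
  choose B' hB' using hb
  refine ⟨(b : R), nonZeroDivisors.coe_ne_zero b, fun L _ φ hφ => ?_⟩
  rw [noProp_iff]
  intro c hc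
  have hmul : (Matrix.of fun i j => B' (i, j)) * A = (b : R) • (1 : Matrix _ _ R) := by
    apply Matrix.map_injective (IsFractionRing.injective R K)
    show Matrix.map _ _ = Matrix.map _ _
    rw [Matrix.map_mul]
    have h2 : (Matrix.of fun i j => B' (i, j)).map (algebraMap R K) =
        (algebraMap R K (b : R)) • B := by
      ext i j
      rw [Matrix.map_apply, Matrix.of_apply, hB' (i, j), Matrix.smul_apply, Algebra.smul_def,
        smul_eq_mul]
    rw [h2, Matrix.smul_mul, hBA]
    ext i j
    simp [Matrix.one_apply, apply_ite (algebraMap R K)]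
  have h3 := congrArg (fun M : Matrix _ _ R => (M.map φ).mulVec c) hmul
  simp only [Matrix.map_mul, ← Matrix.mulVec_mulVec] at h3
  rw [hc, Matrix.mulVec_zero] at h3
  have h4 : ((((b : R) • (1 : Matrix (Fin n × Ind n e) (Fin n × Ind n e) R)).map φ)).mulVec c
      = φ b • c := by
    have : (((b : R) • (1 : Matrix (Fin n × Ind n e) (Fin n × Ind n e) R)).map φ) =
        φ b • (1 : Matrix (Fin n × Ind n e) (Fin n × Ind n e) L) := by
      ext i j
      simp [Matrix.one_apply, apply_ite φ]
    rw [this, Matrix.smul_mulVec, Matrix.one_mulVec]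
  rw [h4] at h3
  exact (smul_eq_zero.1 h3.symm).resolve_left hφ

end Pool.Agent.R855.Drop
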