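import Pool.Agent.W480.RedDegInf
import Pool.Agent.R855.Drop.Spread

/-!
Degrees of the iterates of the members of a family of rational maps.
-/

set_option autoImplicit false

open MvPolynomial Pool.Agent.Helper993.CS

namespace Pool.Agent.R855.Drop

/-- iterates over a commutative ring -/
noncomputable def iterR {R : Type*} [CommRing R] {n : ℕ} (f : Fin n → MvPolynomial (Fin n) R) :
    ℕ → Fin n → MvPolynomial (Fin n) R
  | 0 => X
  | m + 1 => fun i => bind₁ (iterR f m) (f i)

lemma iterR_eq {K : Type*} [Field K] {N : ℕ} (f : Fin (N+1) → MvPolynomial (Fin (N+1)) K) (m : ℕ) :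
    iterR f m = iter f m := by
  induction m with
  | zero => rfl
  | succ m ih =>
    funext i
    show bind₁ (iterR f m) (f i) = bind₁ (iter f m) (f i)
    rw [ih]

lemma map_iterR {R S : Type*} [CommRing R] [CommRing S] (φ : R →+* S) {n : ℕ}
    (f : Fin n → MvPolynomial (Fin n) R) (m : ℕ) (i : Fin n) :
    map φ (iterR f m i) = iterR (fun i => map φ (f i)) m i := by
  induction m generalizing i with
  | zero => exact map_X φ i
  | succ m ih =>
    show map φ (bind₁ (iterR f m) (f i)) = bind₁ (iterR _ m) (map φ (f i))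
    rw [map_bind₁]
    congr 2
    funext j
    exact ih j

/-- the exponent of the scalar in the iterates of a multiple -/
def scExp (d : ℕ) : ℕ → ℕ
  | 0 => 0
  | m + 1 => 1 + d * scExp d m

lemma iter_scale {K : Type*} [Field K] {N : ℕ} {d : ℕ} (f : Fin (N+1) → MvPolynomial (Fin (N+1)) K)
    (hf : ∀ i, (f i).IsHomogeneous d) (c : K) (m : ℕ) (i : Fin (N+1)) :
    iter (fun i => C c * f i) m i = C (c ^ scExp d m) * iter f m i := by
  induction m generalizing i with
  | zero => simp [iter, scExp]
  | succ m ih =>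
    show bind₁ (iter (fun i => C c * f i) m) (C c * f i) = _ * bind₁ (iter f m) (f i)
    have h1 : iter (fun i => C c * f i) m = fun j => C (c ^ scExp d m) * iter f m j :=
      funext fun j => ih j
    rw [h1, map_mul, bind₁_C_right]
    have h2 := ff_scale (hf i) (C (c ^ scExp d m) : MvPolynomial (Fin (N+1)) K) (iter f m)
    have h3 : bind₁ (fun j => C (c ^ scExp d m) * iter f m j) (f i) =
        (C (c ^ scExp d m)) ^ d * bind₁ (iter f m) (f i) := h2
    rw [h3, ← mul_assoc]
    congr 1
    rw [← C_pow, ← C_mul]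
    congr 1
    simp only [scExp]
    ring

/-- clearing denominators -/
lemma clear {R K : Type*} [CommRing R] [IsDomain R] [Field K] [Algebra R K] [IsFractionRing R K]
    {σ ι : Type*} [Finite ι] (F : ι → MvPolynomial σ K) :
    ∃ (b : R) (F' : ι → MvPolynomial σ R), b ≠ 0 ∧
      ∀ i, map (algebraMap R K) (F' i) = C (algebraMap R K b) * F i := by
  classical
  haveI := Fintype.ofFinite ι
  obtain ⟨b, hb⟩ := IsLocalization.exist_integer_multiples_of_finset (nonZeroDivisors R)
    (Finset.univ.biUnion fun i : ι => (F i).support.image fun m => coeff m (F i))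
  have hb' : ∀ i m, ∃ r : R, algebraMap R K r = algebraMap R K (b : R) * coeff m (F i) := by
    intro i m
    by_cases hm : m ∈ (F i).support
    · obtain ⟨r, hr⟩ := hb (coeff m (F i)) (Finset.mem_biUnion.2 ⟨i, Finset.mem_univ _,
        Finset.mem_image.2 ⟨m, hm, rfl⟩⟩)
      exact ⟨r, by rw [hr, Algebra.smul_def]⟩
    · exact ⟨0, by rw [notMem_support_iff.1 hm, mul_zero, map_zero]⟩
  choose r hr using hb'
  refine ⟨b, fun i => ∑ m ∈ (F i).support, monomial m (r i m), nonZeroDivisors.coe_ne_zero b,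
    fun i => ?_⟩
  rw [map_sum]
  conv_rhs => rw [(F i).as_sum]
  rw [Finset.mul_sum]
  apply Finset.sum_congr rfl
  intro m _
  rw [map_monomial, C_mul_monomial, hr]

lemma hom_of_map {R K : Type*} [CommRing R] [CommRing K] (φ : R →+* K)
    (hφ : Function.Injective φ) {σ : Type*} {P : MvPolynomial σ R} {e : ℕ}
    (h : (map φ P).IsHomogeneous e) : P.IsHomogeneous e := by
  intro m hm
  apply h
  rw [coeff_map]
  intro h0
  exact hm (hφ (by rw [h0, map_zero]))

/-- a reduced tuple is not proportional to a nonzero tuple of smaller degree -/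
lemma noProp_of_reduced {K : Type*} [Field K] {N : ℕ} (G : Fin (N+1) → MvPolynomial (Fin (N+1)) K)
    (D : ℕ) (hG : ∀ i, (G i).IsHomogeneous D) (h0 : G 0 ≠ 0)
    (hred : ∀ q, (∀ i, q ∣ G i) → IsUnit q) (e : ℕ) (he : e < D) : NoProp G e := by
  intro g hg hprop
  have hg0 : g 0 = 0 := by
    by_contra hne
    obtain ⟨u, hu⟩ := red_assoc (P := fun j => g 0 * G j) (H := g 0) (fun j => rfl) hred (G 0)
      (fun j => ⟨g j, by rw [hprop 0 j, mul_comm]⟩)
    have hu0 : u ≠ 0 := by
      rintro rfl
      rw [mul_zero] at hu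
      exact hne hu
    have h1 : (g 0).totalDegree = (G 0).totalDegree + u.totalDegree := by
      conv_lhs => rw [hu]
      rw [totalDegree_mul_of_isDomain h0 hu0]
    rw [(hg 0).totalDegree hne, (hG 0).totalDegree h0] at h1
    omega
  intro i
  have h1 := hprop 0 i
  rw [hg0, mul_zero] at h1
  exact (mul_eq_zero.1 h1).resolve_left h0

/-- The reduced degree of a tuple which is a multiple of a tuple satisfying `NoProp`. -/
lemma redDeg_of_noProp {K : Type*} [Field K] {N : ℕ} (P G : Fin (N+1) → MvPolynomial (Fin (N+1)) K)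
    (H : MvPolynomial (Fin (N+1)) K) (D : ℕ) (hP : ∀ i, P i = H * G i) (hP0 : P 0 ≠ 0)
    (hG : ∀ i, (G i).IsHomogeneous D) (hno : ∀ e, e + 1 = D → NoProp G e) (d : ℕ)
    (hd : RedDeg P d) : d = D := by
  have hH : H ≠ 0 := by
    rintro rfl
    exact hP0 (by rw [hP 0, zero_mul])
  have hG0 : G 0 ≠ 0 := by
    intro h
    exact hP0 (by rw [hP 0, h, mul_zero])
  obtain ⟨H1, G1, hH1, hPG, hG1, hcop⟩ := hd
  have hG10 : G1 0 ≠ 0 := by
    intro h
    exact hP0 (by rw [hPG 0, h, mul_zero])
  -- upper bound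
  have hle : d ≤ D := by
    obtain ⟨u, hu⟩ := red_assoc hPG hcop H fun i => ⟨G i, hP i⟩
    have h1 : G 0 = u * G1 0 := by
      apply mul_left_cancel₀ hH
      rw [← hP 0, hPG 0, hu, mul_assoc]
    have hu0 : u ≠ 0 := by
      rintro rfl
      rw [zero_mul] at h1
      exact hG0 h1
    have h2 : (G 0).totalDegree = u.totalDegree + (G1 0).totalDegree := by
      rw [h1, totalDegree_mul_of_isDomain hu0 hG10]
    rw [(hG 0).totalDegree hG0, (hG1 0).totalDegree hG10] at h2
    omega
  by_contra hne
  obtain ⟨e, rfl⟩ : ∃ e, D = e + 1 := ⟨D - 1, by omega⟩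
  have hprop : ∀ i j, G i * G1 j = G j * G1 i := by
    intro i j
    apply mul_left_cancel₀ (mul_ne_zero hH hH1)
    calc H * H1 * (G i * G1 j) = (H * G i) * (H1 * G1 j) := by ring
      _ = P i * P j := by rw [← hP i, ← hPG j]
      _ = P j * P i := mul_comm _ _
      _ = (H * G j) * (H1 * G1 i) := by rw [← hP j, ← hPG i]
      _ = H * H1 * (G j * G1 i) := by ring
  have h1 := hno e rfl (fun i => X 0 ^ (e - d) * G1 i) (fun i => by
      have := ((isHomogeneous_X K (0 : Fin (N+1))).pow (e - d)).mul (hG1 i)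
      rw [one_mul] at this
      have h3 : e - d + d = e := by omega
      rwa [h3] at this) (fun i j => by
      have := hprop i j
      calc G i * (X 0 ^ (e - d) * G1 j) = X 0 ^ (e - d) * (G i * G1 j) := by ring
        _ = X 0 ^ (e - d) * (G j * G1 i) := by rw [this]
        _ = _ := by ring) 0
  exact (mul_ne_zero (pow_ne_zero _ (X_ne_zero 0)) hG10) h1

/-- the coefficients of `F` are regular at `φ`, and `G` is the specialised tuple -/
def Spec {R K L : Type*} [CommRing R] [Field K] [Algebra R K] [Field L] (φ : R →+* L) {σ ι : Type*}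
    (F : ι → MvPolynomial σ K) (G : ι → MvPolynomial σ L) : Prop :=
  ∀ i m, ∃ a b : R, φ b ≠ 0 ∧ coeff m (F i) * algebraMap R K b = algebraMap R K a ∧
    coeff m (G i) * φ b = φ a

lemma spec_clear {R K L : Type*} [CommRing R] [IsDomain R] [Field K] [Algebra R K]
    [IsFractionRing R K] [Field L] (φ : R →+* L) {σ ι : Type*}
    (F : ι → MvPolynomial σ K) (G : ι → MvPolynomial σ L) (h : Spec φ F G) (b : R)
    (F' : ι → MvPolynomial σ R) (hF' : ∀ i, map (algebraMap R K) (F' i) = C (algebraMap R K b) * F i)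
    (i : ι) : map φ (F' i) = C (φ b) * G i := by
  ext m
  obtain ⟨a, c, hc, h1, h2⟩ := h i m
  rw [coeff_map, coeff_C_mul]
  have h3 := congrArg (coeff m) (hF' i)
  rw [coeff_map, coeff_C_mul] at h3
  have h4 : coeff m (F' i) * c = b * a := by
    apply IsFractionRing.injective R K
    rw [map_mul, map_mul, h3, mul_assoc, h1]
  have h5 := congrArg φ h4
  rw [map_mul, map_mul, ← h2] at h5
  apply mul_right_cancel₀ hc
  rw [h5]
  ring

/-- **Degrees of iterates are generically constant.** -/
theorem degree_generic {R K : Type*} [CommRing R] [IsDomain R] [Field K] [Algebra R K]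
    [IsFractionRing R K] {N d : ℕ} (F : Fin (N+1) → MvPolynomial (Fin (N+1)) K)
    (hF : ∀ i, (F i).IsHomogeneous d) (m D : ℕ) (h0 : iter F m 0 ≠ 0) (hD : RedDeg (iter F m) D) :
    ∃ r : R, r ≠ 0 ∧ ∀ (L : Type) [Field L] (φ : R →+* L), φ r ≠ 0 →
      ∀ G : Fin (N+1) → MvPolynomial (Fin (N+1)) L, Spec φ F G → (∀ i, (G i).IsHomogeneous d) →
        iter G m 0 ≠ 0 → ∀ D', RedDeg (iter G m) D' → D' = D := by
  obtain ⟨H, G, hH, hPG, hG, hcop⟩ := hD
  have hG0 : G 0 ≠ 0 := by
    intro h
    exact h0 (by rw [hPG 0, h, mul_zero])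
  obtain ⟨b, F', hb, hF'⟩ := clear (R := R) F
  obtain ⟨h, H', hh, hH'⟩ := clear (R := R) (fun _ : Unit => H)
  obtain ⟨g, G', hg, hG'⟩ := clear (R := R) G
  have hinj : Function.Injective (algebraMap R K) := IsFractionRing.injective R K
  have hGno : ∀ e, e + 1 = D → NoProp (fun i => map (algebraMap R K) (G' i)) e := by
    intro e he
    have h1 := noProp_of_reduced G D hG hG0 hcop e (by omega)
    intro q hq hprop
    apply h1 q hq
    intro i j
    have h2 := hprop i j
    simp only [hG'] at h2
    have h3 : (C (algebraMap R K g) : MvPolynomial (Fin (N+1)) K) ≠ 0 := by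
      rw [Ne, C_eq_zero]
      intro h4
      exact hg (hinj (by rw [h4, map_zero]))
    apply mul_left_cancel₀ h3
    rw [← mul_assoc, h2]
    ring
  have hiter : ∀ i, map (algebraMap R K) (iterR F' m i) =
      C (algebraMap R K b ^ scExp d m) * iter F m i := by
    intro i
    rw [map_iterR, iterR_eq]
    have : (fun i => map (algebraMap R K) (F' i)) = fun i => C (algebraMap R K b) * F i :=
      funext hF'
    rw [this, iter_scale F hF]
  have key : ∀ i, C (h * g) * iterR F' m i = C (b ^ scExp d m) * (H' () * G' i) := by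
    intro i
    apply map_injective _ hinj
    have e1 : map (algebraMap R K) (C (h * g) * iterR F' m i) =
        C (algebraMap R K h) * C (algebraMap R K g) *
          (C (algebraMap R K b ^ scExp d m) * (H * G i)) := by
      rw [map_mul, hiter, map_C, hPG i, map_mul, C_mul]
    have e2 : map (algebraMap R K) (C (b ^ scExp d m) * (H' () * G' i)) =
        C (algebraMap R K b ^ scExp d m) * ((C (algebraMap R K h) * H) *
          (C (algebraMap R K g) * G i)) := by
      rw [map_mul, map_mul, hH', hG', map_C, map_pow]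
    rw [e1, e2]
    ring
  have hGhom : ∀ i, (G' i).IsHomogeneous D := by
    intro i
    apply hom_of_map (algebraMap R K) hinj
    rw [hG']
    exact (hG i).C_mul _
  have hspread : ∃ r0 : R, r0 ≠ 0 ∧ ∀ (L : Type) [Field L] (φ : R →+* L), φ r0 ≠ 0 →
      ∀ e, e + 1 = D → NoProp (fun i => map φ (G' i)) e := by
    rcases Nat.eq_zero_or_pos D with h | h
    · exact ⟨1, one_ne_zero, fun L _ φ _ e he => by omega⟩
    · obtain ⟨e, rfl⟩ : ∃ e, D = e + 1 := ⟨D - 1, by omega⟩
      obtain ⟨r0, h1, h2⟩ := noProp_spread G' e (hGno e rfl)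
      refine ⟨r0, h1, fun L _ φ hφ e' he' => ?_⟩
      obtain rfl : e' = e := by omega
      exact h2 L φ hφ
  obtain ⟨r0, hr0, hno⟩ := hspread
  refine ⟨b * h * g * r0, mul_ne_zero (mul_ne_zero (mul_ne_zero hb hh) hg) hr0,
    fun L _ φ hφ G0 hspec hG0hom hne D' hD' => ?_⟩
  rw [map_mul, map_mul, map_mul] at hφ
  have hφb : φ b ≠ 0 := fun h0 => hφ (by rw [h0]; ring)
  have hφh : φ h ≠ 0 := fun h0 => hφ (by rw [h0]; ring)
  have hφg : φ g ≠ 0 := fun h0 => hφ (by rw [h0]; ring)
  have hφr : φ r0 ≠ 0 := fun h0 => hφ (by rw [h0]; ring)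
  have hiter2 : ∀ i, map φ (iterR F' m i) = C (φ b ^ scExp d m) * iter G0 m i := by
    intro i
    rw [map_iterR, iterR_eq]
    have : (fun i => map φ (F' i)) = fun i => C (φ b) * G0 i :=
      funext fun i => spec_clear φ F G0 hspec b F' hF' i
    rw [this, iter_scale G0 hG0hom]
  have hfin : ∀ i, iter G0 m i = (C (φ (h * g))⁻¹ * map φ (H' ())) * map φ (G' i) := by
    intro i
    have h1 : C (φ (h * g)) * (C (φ b ^ scExp d m) * iter G0 m i) =
        C (φ b ^ scExp d m) * (map φ (H' ()) * map φ (G' i)) := by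
      have h0 := congrArg (map φ) (key i)
      have e1 : map φ (C (h * g) * iterR F' m i) =
          C (φ (h * g)) * (C (φ b ^ scExp d m) * iter G0 m i) := by
        rw [map_mul, hiter2, map_C]
      have e2 : map φ (C (b ^ scExp d m) * (H' () * G' i)) =
          C (φ b ^ scExp d m) * (map φ (H' ()) * map φ (G' i)) := by
        rw [map_mul, map_mul, map_C, map_pow]
      rw [← e1, ← e2]
      exact h0
    have h2 : (C (φ b ^ scExp d m) : MvPolynomial (Fin (N+1)) L) ≠ 0 := by
      rw [Ne, C_eq_zero]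
      exact pow_ne_zero _ hφb
    have h3 : C (φ (h * g)) * iter G0 m i = map φ (H' ()) * map φ (G' i) := by
      apply mul_left_cancel₀ h2
      rw [← h1]
      ring
    rw [mul_assoc, ← h3, ← mul_assoc, ← C_mul, inv_mul_cancel₀, C_1, one_mul]
    rw [map_mul]
    exact mul_ne_zero hφh hφg
  exact redDeg_of_noProp (iter G0 m) (fun i => map φ (G' i)) _ D hfin hne
    (fun i => (hGhom i).map φ) (hno L φ hφr) D' hD'

end Pool.Agent.R855.Drop
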