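import Pool.Agent.R855.Drop.Deg

/-!
Lower semicontinuity of the dynamical degree in families.
-/

set_option autoImplicit false

open MvPolynomial Pool.Agent.Helper993.CS Filter Topology

namespace Pool.Agent.R855.Drop

lemma iter_add {K : Type*} [Field K] {N : ℕ} (f : Fin (N+1) → MvPolynomial (Fin (N+1)) K)
    (a b : ℕ) (i : Fin (N+1)) : iter f (a + b) i = bind₁ (iter f a) (iter f b i) := by
  induction b generalizing i with
  | zero =>
    show iter f a i = bind₁ (iter f a) (X i)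
    rw [bind₁_X_right]
  | succ b ih =>
    show bind₁ (iter f (a + b)) (f i) = bind₁ (iter f a) (bind₁ (iter f b) (f i))
    rw [bind₁_bind₁]
    congr 2
    funext j
    exact ih j

lemma iter_iter {K : Type*} [Field K] {N : ℕ} (f : Fin (N+1) → MvPolynomial (Fin (N+1)) K)
    (m n : ℕ) (i : Fin (N+1)) : iter (iter f m) n i = iter f (m * n) i := by
  induction n generalizing i with
  | zero => rfl
  | succ n ih =>
    show bind₁ (iter (iter f m) n) (iter f m i) = _
    rw [Nat.mul_succ, iter_add]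
    congr 2
    funext j
    exact ih j

lemma algInd_iter {K : Type*} [Field K] {N : ℕ} (f : Fin (N+1) → MvPolynomial (Fin (N+1)) K)
    (hf : AlgebraicIndependent K f) (m : ℕ) : AlgebraicIndependent K (iter f m) := by
  induction m with
  | zero => exact algebraicIndependent_X _ _
  | succ m ih =>
    have h1 : ∀ p : MvPolynomial (Fin (N+1)) K,
        aeval (iter f (m + 1)) p = aeval (iter f m) (aeval f p) := by
      intro p
      show aeval (fun i => bind₁ (iter f m) (f i)) p = _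
      rw [← AlgHom.comp_apply, comp_aeval]
      rfl
    show Function.Injective (aeval (iter f (m + 1)))
    intro p q hpq
    rw [h1, h1] at hpq
    exact hf (ih hpq)

/-- the tuple `f` has dynamical degree `δ` -/
def HasDyn {K : Type*} [Field K] {N : ℕ} (f : Fin (N+1) → MvPolynomial (Fin (N+1)) K) (δ : ℝ) :
    Prop :=
  ∃ D : ℕ → ℕ, (∀ n, RedDeg (iter f n) (D n)) ∧
    Tendsto (fun n : ℕ => (D n : ℝ) ^ ((1:ℝ) / n)) atTop (𝓝 δ)

lemma tendsto_sub {D : ℕ → ℕ} {δ : ℝ}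
    (h : Tendsto (fun n : ℕ => (D n : ℝ) ^ ((1:ℝ) / n)) atTop (𝓝 δ)) (hδ : 0 ≤ δ)
    (j : ℕ) (hj : 0 < D 0) :
    Tendsto (fun m : ℕ => (D (m * j) : ℝ) ^ ((1:ℝ) / m)) atTop (𝓝 (δ ^ j)) := by
  rcases Nat.eq_zero_or_pos j with rfl | hj0
  · have h0 : (0:ℝ) < D 0 := by exact_mod_cast hj
    have : Tendsto (fun n : ℕ => (1:ℝ) / n) atTop (𝓝 0) := tendsto_one_div_atTop_nhds_zero_nat
    have h2 := (Real.continuousAt_const_rpow h0.ne' (b := 0)).tendsto.comp this
    simpa [Function.comp_def] using h2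
  · have h1 : Tendsto (fun m : ℕ => m * j) atTop atTop :=
      tendsto_id.atTop_mul_const' hj0
    have h2 := (h.comp h1).pow j
    refine h2.congr' ?_
    filter_upwards [eventually_gt_atTop 0] with m hm
    simp only [Function.comp]
    rw [← Real.rpow_natCast, ← Real.rpow_mul (Nat.cast_nonneg _)]
    congr 1
    push_cast
    have : (m:ℝ) ≠ 0 := by exact_mod_cast hm.ne'
    have : (j:ℝ) ≠ 0 := by exact_mod_cast hj0.ne'
    field_simp

/-- the general estimate: there is `m` such that the degrees of the iterates `0, m, 2m, …, Nm`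
force the dynamical degree to be larger than `a` -/
theorem exists_m (N : ℕ) (hN : 1 ≤ N) (γ : ℝ) (hγ : 0 < γ) (D : ℕ → ℕ) (hpos : ∀ n, 0 < D n)
    (δ : ℝ) (h : Tendsto (fun n : ℕ => (D n : ℝ) ^ ((1:ℝ) / n)) atTop (𝓝 δ))
    (a : ℝ) (ha : 0 ≤ a) (haδ : a < δ) :
    ∃ m : ℕ, 0 < m ∧ ∃ μ : ℝ, (∀ j < N, μ * D (m * j) ≤ D (m * (j + 1))) ∧ a ^ m < γ * μ := by
  have hδ : 0 < δ := lt_of_le_of_lt ha haδ
  have hratio : ∀ j : ℕ, Tendsto (fun m : ℕ =>
      (γ * ((D (m * (j+1)) : ℝ) / D (m * j))) ^ ((1:ℝ) / m)) atTop (𝓝 δ) := by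
    intro j
    have h1 := tendsto_sub h hδ.le (j+1) (hpos 0)
    have h2 := tendsto_sub h hδ.le j (hpos 0)
    have h3 : Tendsto (fun n : ℕ => γ ^ ((1:ℝ) / n)) atTop (𝓝 1) := by
      have : Tendsto (fun n : ℕ => (1:ℝ) / n) atTop (𝓝 0) := tendsto_one_div_atTop_nhds_zero_nat
      have h4 := (Real.continuousAt_const_rpow hγ.ne' (b := 0)).tendsto.comp this
      simpa [Function.comp_def] using h4
    have h5 := h3.mul (h1.div h2 (pow_ne_zero j hδ.ne'))
    have h6 : 1 * (δ ^ (j+1) / δ ^ j) = δ := by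
      rw [one_mul, pow_succ, mul_div_cancel_left₀ _ (pow_ne_zero j hδ.ne')]
    rw [h6] at h5
    refine h5.congr fun m => ?_
    rw [Real.mul_rpow hγ.le (by positivity), Real.div_rpow (Nat.cast_nonneg _) (Nat.cast_nonneg _)]
    rfl
  have hev : ∀ᶠ m : ℕ in atTop, ∀ j < N,
      a < (γ * ((D (m * (j+1)) : ℝ) / D (m * j))) ^ ((1:ℝ) / m) := by
    have : ∀ᶠ m : ℕ in atTop, ∀ j ∈ Finset.range N,
        a < (γ * ((D (m * (j+1)) : ℝ) / D (m * j))) ^ ((1:ℝ) / m) := by
      rw [Filter.eventually_all_finset]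
      intro j _
      exact (hratio j).eventually (lt_mem_nhds haδ)
    filter_upwards [this] with m hm j hj
    exact hm j (Finset.mem_range.2 hj)
  obtain ⟨m, hm, hm0⟩ := (hev.and (eventually_gt_atTop 0)).exists
  obtain ⟨j0, hj0, hmin⟩ := Finset.exists_min_image (Finset.range N)
    (fun j => (D (m * (j + 1)) : ℝ) / D (m * j)) (Finset.nonempty_range_iff.mpr (by omega))
  refine ⟨m, hm0, (D (m * (j0 + 1)) : ℝ) / D (m * j0), fun j hj => ?_, ?_⟩
  · have h2 := hmin j (Finset.mem_range.mpr hj)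
    have h3 : (0 : ℝ) < D (m * j) := by exact_mod_cast hpos _
    calc _ ≤ (D (m * (j + 1)) : ℝ) / D (m * j) * D (m * j) := mul_le_mul_of_nonneg_right h2 h3.le
      _ = D (m * (j + 1)) := div_mul_cancel₀ _ h3.ne'
  · have h1 := hm j0 (Finset.mem_range.1 hj0)
    have hx : 0 ≤ γ * ((D (m * (j0+1)) : ℝ) / D (m * j0)) := by positivity
    have h2 := pow_lt_pow_left₀ h1 ha hm0.ne'
    rw [← Real.rpow_natCast ((γ * ((D (m * (j0+1)) : ℝ) / D (m * j0))) ^ ((1:ℝ) / m)),
      ← Real.rpow_mul hx] at h2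
    have h3 : (1:ℝ) / m * (m:ℝ) = 1 := by
      have : (m:ℝ) ≠ 0 := by exact_mod_cast hm0.ne'
      field_simp
    rwa [h3, Real.rpow_one] at h2

universe u

/-- **Lower semicontinuity.** -/
theorem main {R : Type u} {K : Type u} [CommRing R] [IsDomain R] [Field K] [Infinite K] [Algebra R K]
    [IsFractionRing R K] {N d : ℕ} (hN : 1 ≤ N) (F : Fin (N+1) → MvPolynomial (Fin (N+1)) K)
    (hF : ∀ i, (F i).IsHomogeneous d) (hind : AlgebraicIndependent K F) (δ : ℝ) (hδ : HasDyn F δ)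
    (ε : ℝ) (hε : 0 < ε) :
    ∃ r : R, r ≠ 0 ∧ ∀ (L : Type) [Field L] [Infinite L] (φ : R →+* L), φ r ≠ 0 →
      ∀ G : Fin (N+1) → MvPolynomial (Fin (N+1)) L, Spec φ F G → (∀ i, (G i).IsHomogeneous d) →
        AlgebraicIndependent L G → ∀ δ', HasDyn G δ' → δ - ε < δ' := by
  obtain ⟨γ, hγ, hmain⟩ := main_inf.{0} N hN
  obtain ⟨γ', -, hmainK⟩ := main_inf.{u} N hN
  have hne : ∀ (L : Type u) [Field L] [Infinite L] (f : Fin (N+1) → MvPolynomial (Fin (N+1)) L),
      AlgebraicIndependent L f → ∀ n i, iter f n i ≠ 0 :=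
    fun L _ _ f hf n i => (algInd_iter f hf n).ne_zero i
  have hne0 : ∀ (L : Type) [Field L] [Infinite L] (f : Fin (N+1) → MvPolynomial (Fin (N+1)) L),
      AlgebraicIndependent L f → ∀ n i, iter f n i ≠ 0 :=
    fun L _ _ f hf n i => (algInd_iter f hf n).ne_zero i
  obtain ⟨D, hD, hlim⟩ := hδ
  obtain ⟨D1, hD1pos, hD1, -⟩ := hmainK K d F hF hind
  have hDD : D = D1 := funext fun n => (hD1 n).2 _ (hD n)
  subst hDD
  have hδ1 : 1 ≤ δ := by
    refine ge_of_tendsto' hlim fun n => ?_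
    exact Real.one_le_rpow (by exact_mod_cast hD1pos n) (by positivity)
  obtain ⟨m, hm0, μ, hμ, hμa⟩ := exists_m N hN γ hγ D hD1pos δ hlim (max (δ - ε) 0)
    (le_max_right _ _) (max_lt (by linarith) (by linarith))
  have hgen : ∀ j : ℕ, ∃ r : R, r ≠ 0 ∧ ∀ (L : Type) [Field L] (φ : R →+* L), φ r ≠ 0 →
      ∀ G : Fin (N+1) → MvPolynomial (Fin (N+1)) L, Spec φ F G → (∀ i, (G i).IsHomogeneous d) →
        iter G (m * j) 0 ≠ 0 → ∀ D', RedDeg (iter G (m * j)) D' → D' = D (m * j) :=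
    fun j => degree_generic F hF (m * j) (D (m * j)) (hne K F hind _ 0) (hD _)
  choose r hr0 hr using hgen
  refine ⟨∏ j ∈ Finset.range (N + 1), r j, Finset.prod_ne_zero_iff.2 fun j _ => hr0 j,
    fun L _ _ φ hφ G hspec hG hGind δ' hδ' => ?_⟩
  rw [map_prod, Finset.prod_ne_zero_iff] at hφ
  obtain ⟨D', hD', hlim'⟩ := hδ'
  have hδ'0 : 0 ≤ δ' := ge_of_tendsto' hlim' fun n => by positivity
  have heq : ∀ j ≤ N, D' (m * j) = D (m * j) := fun j hj =>
    hr j L φ (hφ j (Finset.mem_range.2 (by omega))) G hspec hG (hne0 L G hGind _ 0) _ (hD' _)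
  obtain ⟨D2, hD2pos, hD2, δ2, hlim2, hfin⟩ := hmain L (d ^ m) (iter G m)
    (iter_hom d G hG m) (algInd_iter G hGind m)
  have hD2' : ∀ n, D2 n = D' (m * n) := by
    intro n
    have h1 : iter (iter G m) n = iter G (m * n) := funext fun i => iter_iter G m n i
    exact ((hD2 n).2 (D' (m * n)) (by rw [h1]; exact hD' _)).symm
  have hδ2 : δ2 = δ' ^ m := by
    have h1 : Tendsto (fun n : ℕ => m * n) atTop atTop :=
      tendsto_id.const_mul_atTop' hm0
    have h2 := (hlim'.comp h1).pow m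
    have h3 : Tendsto (fun n : ℕ => (D2 n : ℝ) ^ ((1:ℝ) / n)) atTop (𝓝 (δ' ^ m)) := by
      refine h2.congr' ?_
      filter_upwards [eventually_gt_atTop 0] with n hn
      simp only [Function.comp]
      rw [← Real.rpow_natCast, ← Real.rpow_mul (Nat.cast_nonneg _), hD2' n]
      congr 1
      push_cast
      have : (m:ℝ) ≠ 0 := by exact_mod_cast hm0.ne'
      have : (n:ℝ) ≠ 0 := by exact_mod_cast hn.ne'
      field_simp
    exact tendsto_nhds_unique hlim2 h3
  have h4 := hfin μ (fun j hj => by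
    rw [hD2', hD2', heq j (by omega), heq (j+1) (by omega)]
    exact hμ j hj)
  rw [hδ2] at h4
  have h5 : (max (δ - ε) 0) ^ m < δ' ^ m := lt_of_lt_of_le hμa h4
  have h6 := lt_of_pow_lt_pow_left₀ m hδ'0 h5
  exact lt_of_le_of_lt (le_max_left _ _) h6

end Pool.Agent.R855.Drop
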