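import Pool.Agent.R855.Drop.Main

/-!
Proportional tuples have the same degrees.
-/

set_option autoImplicit false

open MvPolynomial Pool.Agent.Helper993.CS Filter Topology

namespace Pool.Agent.R855.Drop

variable {K : Type*} [Field K] {N : ℕ}

/-- a multiple of an algebraically independent tuple of forms is algebraically independent -/
lemma algInd_mul {d e : ℕ} (g G : Fin (N+1) → MvPolynomial (Fin (N+1)) K)
    (H : MvPolynomial (Fin (N+1)) K) (hg : ∀ i, (g i).IsHomogeneous e)
    (hG : ∀ i, (G i).IsHomogeneous d) (hGg : ∀ i, G i = H * g i)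
    (hH : H ≠ 0) (hind : AlgebraicIndependent K g) : AlgebraicIndependent K G := by
  classical
  have hg0 : g 0 ≠ 0 := hind.ne_zero 0
  have he : 0 < e := by
    rcases Nat.eq_zero_or_pos e with rfl | h
    · exfalso
      have h1 : (g 0).totalDegree = 0 := by
        rw [(hg 0).totalDegree hg0]
      rw [totalDegree_eq_zero_iff_eq_C] at h1
      apply hind.transcendental 0
      rw [h1]
      exact isAlgebraic_algebraMap _
    · exact h
  have hd : 0 < d := by
    have h1 : (G 0).totalDegree = H.totalDegree + (g 0).totalDegree := by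
      rw [hGg 0, totalDegree_mul_of_isDomain hH hg0]
    have hG0 : G 0 ≠ 0 := by
      rw [hGg 0]
      exact mul_ne_zero hH hg0
    rw [(hG 0).totalDegree hG0, (hg 0).totalDegree hg0] at h1
    omega
  rw [algebraicIndependent_iff]
  intro p hp
  have hcomp : ∀ r, aeval G (homogeneousComponent r p) = 0 := by
    intro r
    have h1 : ∀ s, (aeval G (homogeneousComponent s p)).IsHomogeneous (d * s) := fun s =>
      (homogeneousComponent_isHomogeneous s p).aeval G hG
    have h2 : aeval G p = ∑ s ∈ Finset.range (p.totalDegree + 1),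
        aeval G (homogeneousComponent s p) := by
      rw [← map_sum, sum_homogeneousComponent]
    rw [hp] at h2
    by_cases hr : r ∈ Finset.range (p.totalDegree + 1)
    · have h3 := congrArg (homogeneousComponent (d * r)) h2
      rw [map_zero, map_sum, Finset.sum_eq_single r] at h3
      · rw [homogeneousComponent_of_mem ((mem_homogeneousSubmodule _ _).2 (h1 r)), if_pos rfl] at h3
        exact h3.symm
      · intro s _ hs
        rw [homogeneousComponent_of_mem ((mem_homogeneousSubmodule _ _).2 (h1 s)), if_neg]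
        intro h4
        exact hs (Nat.eq_of_mul_eq_mul_left hd h4).symm
      · intro h4
        exact absurd hr h4
    · rw [homogeneousComponent_eq_zero, map_zero]
      rw [Finset.mem_range] at hr
      omega
  have hzero : ∀ r, homogeneousComponent r p = 0 := by
    intro r
    have h1 := hcomp r
    have h2 : aeval G (homogeneousComponent r p) = H ^ r * aeval g (homogeneousComponent r p) := by
      rw [← ff_scale (homogeneousComponent_isHomogeneous r p)]
      congr 2
      funext i
      exact hGg i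
    rw [h2] at h1
    have h3 := (mul_eq_zero.1 h1).resolve_left (pow_ne_zero _ hH)
    exact hind.eq_zero_of_aeval_eq_zero _ h3
  rw [← sum_homogeneousComponent p]
  exact Finset.sum_eq_zero fun r _ => hzero r

/-- the iterates of proportional tuples are proportional -/
lemma iter_mul {d e : ℕ} (g G : Fin (N+1) → MvPolynomial (Fin (N+1)) K)
    (H : MvPolynomial (Fin (N+1)) K) (hg : ∀ i, (g i).IsHomogeneous e)
    (hG : ∀ i, (G i).IsHomogeneous d) (hGg : ∀ i, G i = H * g i)
    (hH : H ≠ 0) (hind : AlgebraicIndependent K g) (n : ℕ) :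
    ∃ A : MvPolynomial (Fin (N+1)) K, A ≠ 0 ∧ ∀ i, iter G n i = A * iter g n i := by
  have hindG := algInd_mul g G H hg hG hGg hH hind
  induction n with
  | zero => exact ⟨1, one_ne_zero, fun i => by rw [one_mul]; rfl⟩
  | succ n ih =>
    obtain ⟨A, hA, h⟩ := ih
    refine ⟨bind₁ (iter G n) H * A ^ e, mul_ne_zero ?_ (pow_ne_zero _ hA), fun i => ?_⟩
    · intro h0
      apply hH
      have h1 : aeval (iter G n) H = 0 := h0
      exact (algInd_iter G hindG n).eq_zero_of_aeval_eq_zero _ h1
    · show bind₁ (iter G n) (G i) = _ * bind₁ (iter g n) (g i)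
      rw [hGg i, map_mul, mul_assoc]
      congr 1
      have h1 : iter G n = fun j => A * iter g n j := funext h
      rw [h1]
      exact ff_scale (hg i) A (iter g n)

lemma redDeg_mul {P Q : Fin (N+1) → MvPolynomial (Fin (N+1)) K} {A : MvPolynomial (Fin (N+1)) K}
    (hA : A ≠ 0) (h : ∀ i, P i = A * Q i) {D : ℕ} (hD : RedDeg Q D) : RedDeg P D := by
  obtain ⟨H, G, hH, h1, h2, h3⟩ := hD
  exact ⟨A * H, G, mul_ne_zero hA hH, fun i => by rw [h i, h1 i, mul_assoc], h2, h3⟩

lemma hasDyn_mul {d e : ℕ} (g G : Fin (N+1) → MvPolynomial (Fin (N+1)) K)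
    (H : MvPolynomial (Fin (N+1)) K) (hg : ∀ i, (g i).IsHomogeneous e)
    (hG : ∀ i, (G i).IsHomogeneous d) (hGg : ∀ i, G i = H * g i)
    (hH : H ≠ 0) (hind : AlgebraicIndependent K g) (δ : ℝ) (h : HasDyn g δ) : HasDyn G δ := by
  obtain ⟨D, hD, hlim⟩ := h
  refine ⟨D, fun n => ?_, hlim⟩
  obtain ⟨A, hA, h⟩ := iter_mul g G H hg hG hGg hH hind n
  exact redDeg_mul hA h (hD n)

lemma spec_hom {R K L : Type*} [CommRing R] [IsDomain R] [Field K] [Algebra R K]
    [IsFractionRing R K] [Field L] (φ : R →+* L) {σ ι : Type*}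
    (F : ι → MvPolynomial σ K) (G : ι → MvPolynomial σ L) (h : Spec φ F G) {d : ℕ}
    (hF : ∀ i, (F i).IsHomogeneous d) (i : ι) : (G i).IsHomogeneous d := by
  intro m hm
  apply hF i
  intro h0
  apply hm
  obtain ⟨a, b, hb, h1, h2⟩ := h i m
  rw [h0, zero_mul] at h1
  have ha : a = 0 := IsFractionRing.injective R K (by rw [← h1, map_zero])
  rw [ha, map_zero] at h2
  exact (mul_eq_zero.1 h2).resolve_right hb

/-- uniqueness and existence of dynamical degrees -/
theorem exists_unique_dyn {K : Type*} [Field K] [Infinite K] (hN : 1 ≤ N) {d : ℕ}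
    (f : Fin (N+1) → MvPolynomial (Fin (N+1)) K) (hf : ∀ i, (f i).IsHomogeneous d)
    (hind : AlgebraicIndependent K f) : ∃ δ, HasDyn f δ ∧ ∀ δ', HasDyn f δ' → δ' = δ := by
  obtain ⟨γ, -, hmain⟩ := main_inf N hN
  obtain ⟨D, hpos, hD, δ, hδ, -⟩ := hmain K d f hf hind
  refine ⟨δ, ⟨D, fun n => (hD n).1, hδ⟩, ?_⟩
  rintro δ' ⟨D', hD', hδ'⟩
  have : D' = D := funext fun n => (hD n).2 _ (hD' n)
  subst this
  exact tendsto_nhds_unique hδ' hδ

end Pool.Agent.R855.Drop
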